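import Pool.Agent.Q47.CF.BrM

/-!
# The cone conjecture for klt Calabi–Yau pairs on flag bundles over torus quotients

Let `X = V / Γ` be a projective quotient of a complex torus of any dimension by any finite group
(reflections are allowed, so that `K_X` need not be trivial), let `c_i`, `i < q`, be any line bundles on
`X`, and let `Y → X` be the bundle of the flags of any fixed type in the fibres of the vector bundle
`⊕ c_i` (for example a bundle of Grassmannians, a projective bundle or the bundle of complete flags).
Let `Δ = ∑ δ_l B_l` be any effective divisor with real coefficients on `Y` such that `K_Y + Δ` is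
numerically trivial and such that for one fibre `Y_v` of `Y → X` the pair `(Y_v, Δ_v)` is klt (this
holds if `(Y, Δ)` is klt). In general the `B_l` are arbitrary hypersurfaces, neither invariant under a
torus nor pullbacks.

The theorem says that (a) the cone `Nef^e(Y)` of the nef and effective classes has a rational polyhedral
fundamental domain for the action of `Aut(Y)`, and also for `Aut(Y, Δ)` and the subgroups of finite
index, and (b) the cone `Mov^e(Y)` has a rational polyhedral fundamental domain for the action of
`PsAut(Y)`, and also for `PsAut(Y, Δ)` and the subgroups of finite index. The two cones are different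
in general.

The proof. (1) The movable cone. Let `z` be a Plücker coordinate (a minor of the rows `I` and of the
first `|I|` columns). If the base locus of a line bundle on `Y` has codimension at least `2`, then it
has a section `G` which does not vanish on the divisor `z = 0`. By row and column operations one sees
that `G` has a monomial whose row content `ρ` satisfies besides the inequalities of Rado for the
effective classes the inequality `∑_{i ∈ I} ρ_i ≤ m_I - a_z`, where `m_I` is the bound in the
inequality of Rado for `I` and `a_z` is the degree of the class with respect to the minors of size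
`|I|`; and by a version of the theorem of Rado with one base excluded (which is proved by the duality
of linear programming) these inequalities mean that `ρ` is a nonnegative combination of the contents
of the Plücker coordinates `y ≠ z`. So the class is `∑ n_y D_y + x`, `n_y ≥ 0`, `n_z = 0`, where `x` is
the class of a line bundle on `X` with a section, hence nef. These conditions, for all `z`, define a
closed cone `C`. Conversely a rational
class in the interior of `C` has a multiple which has for each `z` sections `s ∏ y ^ {n_y}`, `n_z = 0`,
where the `s` have no common zeros. The minors are irreducible and pairwise not associated, so that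
by the Nullstellensatz each hypersurface contains a point at which all Plücker coordinates but one
are not zero; so the common zeros of these sections have codimension at least `2`. Hence
`Mov^e(Y) = C ∩ Eff(Y)`. The nef cone is described by the charts which contain the flags of the
permutation matrices.
(2) Let `F_l(v, g)` be the equation of `B_l`, a polynomial in the entries of the matrix `g` with
holomorphic coefficients. Since one fibre is klt, the charts of the flag variety at the flags of the
permutation matrices show that in the space of the weights with the sum `κ q` the center `(κ, ..., κ)`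
is an interior point of the convex hull of the points `∑ δ_l α_l`, where `α_l` runs through the row
contents of the monomials of `F_l`. The coefficient of each monomial is a section of a line bundle on
`X`, so that its Chern form is semidefinite; `K_Y + Δ ≡ 0` and the convexity of the set of row contents
show that these forms, and those of all `c_i ⊗ c_k^{-1}`, vanish in all directions which are parallel
to the mirrors of the reflections in `Γ`; and the differences of the row contents generate a subgroup
of finite index in the lattice of the weights of sum zero, so that the factors of the line bundles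
`c_i ⊗ c_k^{-1}` on the lattice vectors in these directions are roots of unity, because the sections
are invariant by Liouville's theorem.
(3) Reduction theory (Voronoi's theory for an order in a real algebra with positive involution) covers
the ample classes of `X` by the translates of a cone spanned by finitely many nef integral classes,
under units which are congruent to `1`. Such a unit extends to an affine automorphism `f` of `V` which
normalises `Γ` and moves all points in directions parallel to all mirrors; by (2) there are functions
`a_i` such that `(v, g) ↦ (f v, (a_i(v) g_{ij})_{ij})` is an automorphism of the pair `(Y, Δ)`. It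
fixes the classes of the Plücker coordinates.
(4) The nef (movable) classes whose component in `N^1(X)` lies in a rational polyhedral cone form a
rational polyhedral cone: by (2) the conditions can be tested on finitely many vectors, one for each
reflection. Finally a Dirichlet domain is a fundamental domain.

`IsSemiInvariant`, `IsSection`, `ev`, `Low` and `chart` are defined in `Pool.Agent.Q47.FL.Defs`;
`FlagBundle`, `Bdry`, `IsLogCanonical`, `Bdry.IsKltAt`, `Bdry.IsFixedBy`, `NY`, `cl`, `pb`, `D`, `intY`,
`effY`, `wt`, `nefY`, `IsAutY`, `IsPullbackY`, `anti`, `IsCY` and `absGrp` in `Pool.Agent.Q47.CF.St`;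
`IsMovable` and `movY` in `Pool.Agent.Q47.CF.StM`; `IsTQ`, `hull`, `chernCl` and `PresLatt` in
`Pool.Agent.Q47.CY.St`; `LineBundle` in `Pool.Agent.W594.SYZ.Defs2`; `IsChernForm` and
`IsPositiveForm` in `Pool.Agent.W594.SYZ.TQDefs`; `IsRamification` and `IsLogPluricanonical` in
`Pool.Agent.TH735.AQ.MirDefs`; `AffGrp`, `IsClass` and `Normalizes` in `Pool.Agent.Y167.Defs`;
`LinGrp`, `Preserves`, `IsFundDomain`, `N1`, `form` and `nefCone` in `Pool.Agent.Y167.Stm`; `cone` in
`Pool.Agent.Y167.ConeDef`. In the absolute case the linear subspace `E` of `V` of the general
definitions is `V` itself, embedded by the identity map.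
-/

set_option autoImplicit false

namespace Pool.Agent.Results.MP_ad47bb_ag.FlagBundlePairs

open Pool.Agent.W594.SYZ2 Pool.Agent.TH735.AQ
open Pool.Agent.Y167 (AffGrp cone rel_abs)
open Pool.Agent.Y167.CC (LinGrp Preserves IsFundDomain)
open Q47.CP (IsTQ isTQ_iff PresLatt)
open Q47.CF

variable {V : Type*} [NormedAddCommGroup V] [NormedSpace ℂ V] {Γ : AffGrp V} {q s r : ℕ}

/-- The space `N^1(Y)`. -/
abbrev NS (Y : FlagBundle Γ q s) : Type _ := NY Y (LinearMap.id : V →ₗ[ℂ] V)

/-- The cone `Nef^e(Y)` of the nef and effective classes. -/
def nefEff (Y : FlagBundle Γ q s) : Set (NS Y) := nefY Y LinearMap.id ∩ effY Y LinearMap.id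

/-- The cone `Mov^e(Y)`: the effective classes in the closed movable cone. -/
def movEff (Y : FlagBundle Γ q s) : Set (NS Y) := movY Y LinearMap.id ∩ effY Y LinearMap.id

/-- `𝒢` is a group of linear automorphisms of `N^1(Y)` which preserves a lattice commensurable with
the lattice of the integral classes (for example the lattice of the classes of Weil divisors) and the
cone `C`, and which contains a subgroup of finite index of the group generated by the pullbacks by the
automorphisms `(v, g) ↦ (f v, (a_i(v) g_{ij})_{ij})` of `Y` which map all components `B_l` of `Δ` to
themselves. For `C = Nef^e(Y)` the images of `Aut(Y)` and of `Aut(Y, Δ)` have these properties, for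
`C = Mov^e(Y)` those of `PsAut(Y)` and of `PsAut(Y, Δ)`, and so have their subgroups of finite index. -/
def IsLarge {Y : FlagBundle Γ q s} (Δ : Bdry Y r) (C : Set (NS Y)) (𝒢 : LinGrp (NS Y)) : Prop :=
  PresLatt (intY Y LinearMap.id) 𝒢 ∧ Preserves 𝒢 C ∧ 𝒢.relIndex (absGrp Δ) ≠ 0

/-- Some cone which is spanned by finitely many integral classes and contained in `C` is a fundamental
domain for the action of `𝒢` on `C`. -/
def HasDomain {Y : FlagBundle Γ q s} (C : Set (NS Y)) (𝒢 : LinGrp (NS Y)) : Prop :=
  ∃ S : Finset (NS Y), ↑S ⊆ intY Y LinearMap.id ∧ cone S ⊆ C ∧ IsFundDomain 𝒢 C (cone S)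

/-- Let `X = V / Γ` be a projective torus quotient, `Y → X` a bundle of flags, and `Δ` an effective
divisor with real coefficients on `Y` such that `K_Y + Δ` is numerically trivial and such that
`(Y_v, Δ_v)` is klt for one `v ∈ V`. (a) If `𝒢` is large for `Nef^e(Y)` (for example the image of
`Aut(Y)` or of `Aut(Y, Δ)`), then it has a rational polyhedral fundamental domain in `Nef^e(Y)`.
(b) If `𝒢` is large for `Mov^e(Y)` (for example the image of `PsAut(Y)` or of `PsAut(Y, Δ)`), then it
has a rational polyhedral fundamental domain in `Mov^e(Y)`. -/
theorem result [FiniteDimensional ℂ V] (Γ : AffGrp V) (hΓ : IsTQ Γ)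
    (hproj : ∃ (L : LineBundle Γ) (H : V → V → ℂ), IsChernForm L H ∧ IsPositiveForm H)
    (Y : FlagBundle Γ q s) (Δ : Bdry Y r) (hklt : ∃ v, Δ.IsKltAt v) (hCY : IsCY Δ LinearMap.id) :
    (∀ 𝒢 : LinGrp (NS Y), IsLarge Δ (nefEff Y) 𝒢 → HasDomain (nefEff Y) 𝒢) ∧
    ∀ 𝒢 : LinGrp (NS Y), IsLarge Δ (movEff Y) 𝒢 → HasDomain (movEff Y) 𝒢 := by
  obtain ⟨L, H, hc, hp⟩ := hproj
  obtain ⟨v, hv⟩ := hklt
  have R := rel_abs (isTQ_iff.1 hΓ) hc hp
  have hjr : LinearMap.range (LinearMap.id : V →ₗ[ℂ] V) = LinearMap.ker (0 : V →ₗ[ℂ] PUnit) := by
    rw [LinearMap.range_id, LinearMap.ker_zero]
  refine ⟨fun 𝒢 h𝒢 => ?_, fun 𝒢 h𝒢 => ?_⟩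
  · have h1 := h𝒢.2.2
    rw [absGrp_eq] at h1
    exact main R hjr Δ hv hCY 𝒢 h𝒢.1 h𝒢.2.1 h1
  · have h1 := h𝒢.2.2
    rw [absGrp_eq] at h1
    exact main_mov R hjr Δ hv hCY 𝒢 h𝒢.1 h𝒢.2.1 h1

end Pool.Agent.Results.MP_ad47bb_ag.FlagBundlePairs
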