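import Pool.Agent.Q47.CY.BrM

/-!
# The cone conjecture for klt Calabi–Yau pairs on toric bundles over torus quotients

Let `X = V / Γ` be a projective quotient of a complex torus of any dimension by any finite group
(reflections are allowed, so that `K_X` need not be trivial), and let `Y → X` be a toric bundle: a
locally trivial bundle whose fibre is a smooth projective toric variety, twisted by arbitrary line
bundles `c_i` on `X` (for example the projectivisation of a direct sum of line bundles). Let
`Δ = ∑ δ_j B_j` be any effective divisor with real coefficients on `Y` such that `K_Y + Δ` is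
numerically trivial and such that for one fibre `Y_v` of `Y → X` the pair `(Y_v, Δ_v)` is klt (this
holds if `(Y, Δ)` is klt). In general `Δ` is neither torus invariant nor a pullback.

The theorem says that (a) the cone `Nef^e(Y)` of the nef and effective classes has a rational polyhedral
fundamental domain for the action of `Aut(Y)`, and also for `Aut(Y, Δ)` and the subgroups of finite
index, and (b) the cone `Mov^e(Y)` has a rational polyhedral fundamental domain for the action of
`PsAut(Y)`, and also for `PsAut(Y, Δ)` and the subgroups of finite index. In contrast to the case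
`Y = X` (where all effective classes are nef and movable), the two cones are different in general.

The proof. (1) The movable cone: if the base locus of a line bundle has codimension at least `2`, then
for each `i` it has a section whose equation contains a monomial without `x_i`, so that its class is
`∑ β_k D_k + x`, `β ≥ 0`, `β_i = 0`, where `x` is the class of a line bundle on `X` with a section, hence
nef. These conditions define a closed cone `C`. Conversely a rational class in the interior of `C`
has a multiple which has for each `i` a monomial `x^β` with `β_i = 0` with an ample coefficient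
bundle on `X`, hence sections `s x^β`, where the `s` have no common zeros. The common zeros of these
sections have codimension at least `2` (a holomorphic function of two variables has no isolated
zeros). So `Mov^e(Y) = C ∩ Eff(Y)`.
(2) Let `F_j` be the equation of `B_j` in the Cox coordinates. Since one fibre is klt, for each weight
`w ≥ 0`, `w ≠ 0`, on a cone of the fan there are monomials `α_j` in `F_j` with
`∑ δ_j w(α_j) < ∑ w_i`. The coefficient of each monomial is a section of a line bundle on `X`, so
that its Chern form is semidefinite; `K_Y + Δ ≡ 0` and the convexity of the set of exponents show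
that these forms, and those of all line bundles `∏ c_i ^ u_{ik}`, vanish in all directions which are
parallel to the mirrors of the reflections in `Γ`; and the differences of the exponents generate a
subgroup of finite index in `ℤ^n`, so that the factors of these line bundles on the lattice vectors
in these directions are roots of unity, because the sections are invariant by Liouville's theorem.
(3) Reduction theory (Voronoi's theory for an order in a real algebra with positive involution) covers
the ample classes of `X` by the translates of a cone spanned by finitely many nef integral classes,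
under units which are congruent to `1`. Such a unit extends to an affine automorphism `f` of `V` which
normalises `Γ` and moves all points in directions parallel to all mirrors; by (2) there are functions
`a_i` such that `(v, x) ↦ (f v, (a_i(v) x_i)_i)` is an automorphism of the pair `(Y, Δ)`. It fixes all
`D_i`.
(4) The nef (movable) classes `∑ β_i D_i + x` with `β_i ≥ 0` and `x` in a rational polyhedral cone form
a rational polyhedral cone: by (2) the conditions can be tested on finitely many vectors, one for
each reflection. Finally a Dirichlet domain is a fundamental domain.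

`IsSmoothFan`, `LinEquiv` and `IsSection` are defined in `Pool.Agent.Q47.TB.Defs`; `IsFibreAmple` in
`Pool.Agent.Q47.AL.Def`; `IsLogCanonical` in `Pool.Agent.Q47.TR.Stm`; `Bundle`, `Bdry`,
`Bdry.IsKltAt` and `Bdry.IsFixedBy` in `Pool.Agent.Q47.CY.Def`; `IsTQ`, `NY`, `D`, `pb`, `hull`,
`intY`, `effY`, `nefY`, `IsAutY`, `IsPullbackY`, `IsCY`, `absGrp` and `PresLatt` in
`Pool.Agent.Q47.CY.St`; `HoloNear`, `IsMovable` and `movY` in `Pool.Agent.Q47.CY.StM`; `LineBundle`
in `Pool.Agent.W594.SYZ.Defs2`; `IsChernForm` and `IsPositiveForm` in
`Pool.Agent.W594.SYZ.TQDefs`; `IsRamification` and `IsLogPluricanonical` in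
`Pool.Agent.TH735.AQ.MirDefs`; `AffGrp`, `IsClass` and `Normalizes` in `Pool.Agent.Y167.Defs`;
`LinGrp`, `Preserves`, `IsFundDomain`, `N1`, `form` and `nefCone` in `Pool.Agent.Y167.Stm`; `cone` in
`Pool.Agent.Y167.ConeDef`. In the absolute case the linear subspace `E` of `V` of the general
definitions is `V` itself, embedded by the identity map.
-/

set_option autoImplicit false

namespace Pool.Agent.Results.MP_ad47bb_ag.ToricBundlePairs

open Pool.Agent.W594.SYZ2 Pool.Agent.TH735.AQ
open Pool.Agent.Y167 (AffGrp cone rel_abs)
open Pool.Agent.Y167.CC (LinGrp Preserves IsFundDomain)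
open Q47.CY (Bundle Bdry)
open Q47.CP

variable {V : Type*} [NormedAddCommGroup V] [NormedSpace ℂ V] {Γ : AffGrp V}
  {ι : Type*} [Fintype ι] {n r : ℕ}

/-- The space `N^1(Y)`. -/
abbrev NS (Y : Bundle Γ ι n) : Type _ := NY Y (LinearMap.id : V →ₗ[ℂ] V)

/-- The cone `Nef^e(Y)` of the nef and effective classes. -/
def nefEff (Y : Bundle Γ ι n) : Set (NS Y) := nefY Y LinearMap.id ∩ effY Y LinearMap.id

/-- The cone `Mov^e(Y)`: the effective classes in the closed movable cone. -/
def movEff (Y : Bundle Γ ι n) : Set (NS Y) := movY Y LinearMap.id ∩ effY Y LinearMap.id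

/-- `𝒢` is a group of linear automorphisms of `N^1(Y)` which preserves a lattice commensurable with
the lattice of the integral classes (for example the lattice of the classes of Weil divisors) and the
cone `C`, and which contains a subgroup of finite index of the group generated by the pullbacks by the
automorphisms `(v, x) ↦ (f v, (a_i(v) x_i)_i)` of `Y` which map all components `B_j` of `Δ` to
themselves. For `C = Nef^e(Y)` the images of `Aut(Y)` and of `Aut(Y, Δ)` have these properties, for
`C = Mov^e(Y)` those of `PsAut(Y)` and of `PsAut(Y, Δ)`, and so have their subgroups of finite index. -/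
def IsLarge {Y : Bundle Γ ι n} (Δ : Bdry Y r) (C : Set (NS Y)) (𝒢 : LinGrp (NS Y)) : Prop :=
  PresLatt (intY Y LinearMap.id) 𝒢 ∧ Preserves 𝒢 C ∧ 𝒢.relIndex (absGrp Δ) ≠ 0

/-- Some cone which is spanned by finitely many integral classes and contained in `C` is a fundamental
domain for the action of `𝒢` on `C`. -/
def HasDomain {Y : Bundle Γ ι n} (C : Set (NS Y)) (𝒢 : LinGrp (NS Y)) : Prop :=
  ∃ S : Finset (NS Y), ↑S ⊆ intY Y LinearMap.id ∧ cone S ⊆ C ∧ IsFundDomain 𝒢 C (cone S)

/-- Let `X = V / Γ` be a projective torus quotient, `Y → X` a toric bundle, and `Δ` an effective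
divisor with real coefficients on `Y` such that `K_Y + Δ` is numerically trivial and such that
`(Y_v, Δ_v)` is klt for one `v ∈ V`. (a) If `𝒢` is large for `Nef^e(Y)` (for example the image of
`Aut(Y)` or of `Aut(Y, Δ)`), then it has a rational polyhedral fundamental domain in `Nef^e(Y)`.
(b) If `𝒢` is large for `Mov^e(Y)` (for example the image of `PsAut(Y)` or of `PsAut(Y, Δ)`), then it
has a rational polyhedral fundamental domain in `Mov^e(Y)`. -/
theorem result [FiniteDimensional ℂ V] (Γ : AffGrp V) (hΓ : IsTQ Γ)
    (hproj : ∃ (L : LineBundle Γ) (H : V → V → ℂ), IsChernForm L H ∧ IsPositiveForm H)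
    (Y : Bundle Γ ι n) (Δ : Bdry Y r) (hklt : ∃ v, Δ.IsKltAt v) (hCY : IsCY Δ LinearMap.id) :
    (∀ 𝒢 : LinGrp (NS Y), IsLarge Δ (nefEff Y) 𝒢 → HasDomain (nefEff Y) 𝒢) ∧
    ∀ 𝒢 : LinGrp (NS Y), IsLarge Δ (movEff Y) 𝒢 → HasDomain (movEff Y) 𝒢 := by
  obtain ⟨L, H, hc, hp⟩ := hproj
  obtain ⟨v, hv⟩ := hklt
  have R := rel_abs (isTQ_iff.1 hΓ) hc hp
  have hjr : LinearMap.range (LinearMap.id : V →ₗ[ℂ] V) = LinearMap.ker (0 : V →ₗ[ℂ] PUnit) := by
    rw [LinearMap.range_id, LinearMap.ker_zero]
  refine ⟨fun 𝒢 h𝒢 => ?_, fun 𝒢 h𝒢 => ?_⟩
  · have h1 := h𝒢.2.2
    rw [absGrp_eq] at h1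
    exact main R hjr Δ hv hCY subset_rfl ⟨∅, Y.fan.empty_mem⟩ nefY_eq 𝒢 h𝒢.1 h𝒢.2.1 h1
  · have h1 := h𝒢.2.2
    rw [absGrp_eq] at h1
    exact main_mov R hjr Δ hv hCY 𝒢 h𝒢.1 h𝒢.2.1 h1

end Pool.Agent.Results.MP_ad47bb_ag.ToricBundlePairs
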