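import Pool.Agent.Q57.FD.Main

/-!
# Fundamental domains on the nef and the movable cones of the toroidal models of covers of products of
# projective spaces

Q1 asks for rational polyhedral fundamental domains (a) for `Aut(X)` on the effective nef cone and (b)
for `PsAut(X)` on the effective movable cone of a klt Calabi-Yau pair `(X, Δ)`. We prove (a) and (b) for
the toroidal parts of the cones of the following varieties `X`, also for the groups which preserve `Δ`.

Let `F i` be a form of degree `d i` in `n i + 1` variables whose zero set in the projective
`n i`-space is a smooth hypersurface, `i = 1, ..., r`. Let `K` be the function field of an abelian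
cover `Y` of the product of the projective `n i`-spaces which is branched along the hypersurfaces
`F i = 0` of the factors: `K` is generated by the affine coordinates and by roots `z j`,
`z j ^ (m j) = ∏ i, (F i (x i) / x i 0 ^ (d i)) ^ (a j i)`, where `m j` divides `a j i * d i`. There
is no condition on the dimensions `n i ≥ 1` and the degrees.

A prime divisor `P` over `Y` (a divisorial place of `K`) has the vector `multiplicities F d x P` of the
multiplicities `v i` of the hypersurfaces along `P`. The vectors `v ≠ 0` of nonnegative integers with
`m j ∣ ∑ i, a j i * v i` for all `j` are the `Admissible` ones: the nonzero points, in the positive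
orthant, of the lattice of the toroidal variety `Y`.

**The varieties.** The toroidal modifications `X` of `Y` are given by the subdivisions (fans) of the
positive orthant into rational polyhedral cones; `fan` is the set of the maximal cones, each given by
a finite set of admissible generators which span the space. If `X` has a klt boundary `Δ` with
`K_X + Δ ≡ 0` then it belongs to the question. For example, let `Y` be the double cover of the product
of the projective spaces which is branched along the union of the hypersurfaces `F i = 0`, with
`d i = 2 (n i + 1)`: here `z ^ 2 = ∏ i, F i (x i) / x i 0 ^ (d i)`, and the lattice consists of the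
vectors with an even sum. Then `K_Y = 0`, and for every triangulation of the simplex `∑ i, v i = 2`
with all its integral points as vertices (there are many for `r ≥ 3`, related by flops) the
modification `X` is a `ℚ`-factorial terminal variety with `K_X = 0`, projective if the triangulation is
regular, smooth if its simplices have the minimal volume, of the dimension `∑ i, n i`, with the Picard
number `r (r + 1) / 2` if all `n i ≥ 3`. The partial resolutions of `Y` which correspond to the
triangulations with only some of the points as vertices are klt with `K_X = 0`. Similarly for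
`d i ≤ 2 (n i + 1)` and `Δ` a multiple of general hypersurfaces, and for the quotients `Y` of products
of cyclic covers `Y i` of the projective spaces with `K = 0` (double covers, quintic threefolds
`w ^ 5 = F`, triple covers of the projective `3`-space branched along sextics, ...) by groups of
diagonal automorphisms which preserve the volume form, and their crepant toroidal resolutions `X`.

**The divisors.** `D 1, ..., D p` are toroidal `ℚ`-Cartier divisors on `X`: sums of multiples `β i t`
of the hyperplane classes of the factors and of the prime divisors of the boundary of `X`. The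
coefficient of the pullback of `D i` at a prime divisor `P` over `X` is
`coefficient F d x (c i) (β i) P = c i v + ∑ t, β i t * h t`, where `v` is the vector of the
multiplicities, `h t` is minus the minimal order at `P` of the homogeneous coordinates of the `t`-th
factor, and `- c i v = ∑ k, u σ i k * v k` on the cone `σ`. If all `n i ≥ 3` then every divisor on `X`
is, up to `ℚ`-linear equivalence, toroidal (Lefschetz; this is not used and not proved here). Then,
for a suitable multiple `k`, there are toroidal Cartier divisors `D i` which are a basis of
`k * (Pic X / ≡)`, the real combinations `∑ i, lam i * D i` are the vector space `N¹(X)`, and the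
pseudo-automorphisms of a `ℚ`-factorial `X` act on it by matrices which preserve a lattice.

**The prime divisors on `X`.** The number `logDiscrepancy F d x P` is the log discrepancy along `P` of
the product of the projective spaces with the boundary `∑ i, (F i = 0)`; it is also the one of `X`
with its boundary. Let `faces` be a nonempty set of cones, each generated by some of the generators of
a maximal cone. `Over` are the prime divisors `P` over the open toroidal subset `X°` of `X` which
belongs to `faces`: `v` is in one of the cones in `faces`. `Test` are those with log discrepancy `0`,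
or `1` if `v = 0`.
* (a) If `faces = fan` then `X° = X` and `Over` are all prime divisors over `X`. Then `effectiveCone` is the
  effective nef cone: by the theorem it is generated by divisors without base points.
* (b) If `faces` is the set of the rays of the fan (one generator each), then `X°` is the
  complement of the closed strata of codimension two or more, and `Test` are exactly the prime divisors
  on `X`: the components of the boundary (the vector `v` is on a ray, log discrepancy `0`), and the
  others (`v = 0`, log discrepancy `1`). Then `NefAt` means that the combination is in the closure of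
  the cone of the movable divisors, and `effectiveCone` is the effective movable cone.

**The theorem.** Assume that there is no combination `lam ≠ 0` with `lam` and `- lam` in the effective
cone (the `D i` are numerically independent) and that the effective cone has interior points (this is
the case if `X` is projective and an ample divisor is a combination of the `D i`). Let `Γ` be an
arbitrary group of invertible integral matrices which preserve the effective cone, for example the
group by which the automorphisms (a) or the pseudo-automorphisms (b) of `X`, or those which preserve a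
boundary `Δ`, act on the lattice which is generated by the `D i`. Then `Γ` is finite, and there is a
rational polyhedral cone `Π`, generated by classes of integral divisors without base points over `X°`
(for the rays: with base loci of codimension at least two), such that the effective cone is the union
of the cones `g Π`, `g ∈ Γ`, and the interior of `Π` is disjoint from the interiors of the cones `g Π`
for all `g ≠ 1` in `Γ`. If all `n i ≥ 3` this is Q1 (a) and (b) for the pairs `(X, Δ)` (with the Lefschetz
theorem, which is not proved here). The theorem also says that all combinations which are nef at the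
prime divisors in `Test` are effective. There is no condition on `K_X`.
-/

set_option autoImplicit false

open FF MvPolynomial Pool.Agent.W602.GT

namespace Pool.Agent.Results.MP_ad47bb_ag.ToroidalModelDomains

/-- The form `F` has no singular zeros: its partial derivatives have no common zero but `0`. -/
def Smooth {n : ℕ} (F : MvPolynomial (Fin (n + 1)) ℂ) : Prop :=
  ∀ x : Fin (n + 1) → ℂ, x ≠ 0 → ∃ l, eval x (pderiv l F) ≠ 0

section fans

variable {r R : ℕ}

/-- The multiplicities which satisfy the divisibility conditions. -/
def Admissible (m : Fin R → ℕ) (a : Fin R → Fin r → ℕ) (v : Fin r → ℕ) : Prop :=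
  v ≠ 0 ∧ ∀ j, m j ∣ ∑ i, a j i * v i

/-- The vector `v` is in the cone which is generated by the vectors in `σ`. -/
def InCone (σ : Finset (Fin r → ℕ)) (v : Fin r → ℕ) : Prop :=
  ∃ w : (Fin r → ℕ) → ℚ, (∀ s, 0 ≤ w s) ∧ ∀ k, (v k : ℚ) = ∑ s ∈ σ, w s * s k

/-- `fan` is a finite set of cones, each generated by a finite set of admissible vectors which span
the whole space, which cover all admissible vectors. -/
structure IsFan (m : Fin R → ℕ) (a : Fin R → Fin r → ℕ) (fan : Finset (Finset (Fin r → ℕ))) :
    Prop where
  adm : ∀ σ ∈ fan, ∀ s ∈ σ, Admissible m a s
  full : ∀ σ ∈ fan, ∀ f : Fin r → ℚ, ∃ q : (Fin r → ℕ) → ℚ, ∀ k, f k = ∑ s ∈ σ, q s * s k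
  cover : ∀ v, Admissible m a v → ∃ σ ∈ fan, InCone σ v

end fans

section places

variable {r : ℕ} {n : Fin r → ℕ} {K : Type} [Field K] [Algebra ℂ K]

/-- The affine coordinates of the product of the projective spaces. -/
noncomputable def affine (x : ∀ i, Fin (n i + 1) → K) (b : (i : Fin r) × Fin (n i)) : K :=
  x b.1 b.2.succ / x b.1 0

/-- The minimal order at `P` of the homogeneous coordinates `y`. -/
noncomputable def minimalOrder {n : ℕ} (y : Fin (n + 1) → K) (P : Place ℂ K) : ℤ :=
  Finset.univ.inf' Finset.univ_nonempty fun j => P.ord (y j)

/-- The multiplicities of the hypersurfaces `F i = 0` along the prime divisor `P`; the `x i j` are the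
homogeneous coordinates of the `i`-th factor, which are divided by one of minimal order at `P`. -/
noncomputable def multiplicities (F : ∀ i, MvPolynomial (Fin (n i + 1)) ℂ) (d : Fin r → ℕ)
    (x : ∀ i, Fin (n i + 1) → K) (P : Place ℂ K) (i : Fin r) : ℕ :=
  (P.ord (aeval (x i) (F i)) - d i * minimalOrder (x i) P).toNat

/-- The coefficient at the prime divisor `P` of the divisor with the function `c` of the
multiplicities and the degrees `β t`: it is `c v` plus `β t` times the coefficient at `P` of the
hyperplane class of the `t`-th factor, which is represented by the divisor with the coefficients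
`- minimalOrder (x t) P` (its sections are the linear forms in the `x t j`). -/
noncomputable def coefficient (F : ∀ i, MvPolynomial (Fin (n i + 1)) ℂ) (d : Fin r → ℕ)
    (x : ∀ i, Fin (n i + 1) → K) (c : (Fin r → ℕ) → ℚ) (β : Fin r → ℤ) (P : Place ℂ K) : ℚ :=
  c (multiplicities F d x P) - ∑ t, (β t : ℚ) * minimalOrder (x t) P

/-- The canonical form of the product of the projective spaces, evaluated at vector fields: the
product of the `x i 0 ^ (n i + 1)`, times the determinant of the derivatives of the affine
coordinates. -/
noncomputable def canonicalForm (x : ∀ i, Fin (n i + 1) → K)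
    (D : ((i : Fin r) × Fin (n i)) → Derivation ℂ K K) : K :=
  (∏ i, x i 0 ^ (n i + 1)) * (Matrix.of fun b b' => D b (affine x b')).det

/-- The order of the canonical form along `P`: the minimal order of its values at vector fields which
are regular at `P`. -/
noncomputable def formOrder (x : ∀ i, Fin (n i + 1) → K) (P : Place ℂ K) : ℤ :=
  sInf {k : ℤ | ∃ D : ((i : Fin r) × Fin (n i)) → Derivation ℂ K K, (∀ b, DerReg P (D b)) ∧
    canonicalForm x D ≠ 0 ∧ P.ord (canonicalForm x D) = k}

/-- The log discrepancy along `P` of the product of the projective spaces, with the boundary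
`∑ i, (F i = 0)`: the order along `P` of the logarithmic canonical forms, which are obtained from the
canonical form by the division by the local equations of the hypersurfaces and by the powers
`n i + 1` of coordinates `x i j` of minimal order, plus one. -/
noncomputable def logDiscrepancy (F : ∀ i, MvPolynomial (Fin (n i + 1)) ℂ) (d : Fin r → ℕ)
    (x : ∀ i, Fin (n i + 1) → K) (P : Place ℂ K) : ℤ :=
  formOrder x P + 1 - ∑ i, (multiplicities F d x P i : ℤ) -
    ∑ i, ((n i : ℤ) + 1) * minimalOrder (x i) P

/-- `P` lies over the open toroidal subset of `X` which belongs to `faces`: the vector of the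
multiplicities is in one of the cones. -/
def Over (F : ∀ i, MvPolynomial (Fin (n i + 1)) ℂ) (d : Fin r → ℕ)
    (x : ∀ i, Fin (n i + 1) → K) (faces : Finset (Finset (Fin r → ℕ))) (P : Place ℂ K) : Prop :=
  ∃ τ ∈ faces, InCone τ (multiplicities F d x P)

open scoped Classical in
/-- `P` lies over the open toroidal subset which belongs to `faces`, and its log discrepancy is `0`,
or `1` if the vector of the multiplicities is `0`. If `faces` is the set of the rays of the fan then
these are the prime divisors on `X`. -/
def Test (F : ∀ i, MvPolynomial (Fin (n i + 1)) ℂ) (d : Fin r → ℕ)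
    (x : ∀ i, Fin (n i + 1) → K) (faces : Finset (Finset (Fin r → ℕ))) (P : Place ℂ K) : Prop :=
  Over F d x faces P ∧ logDiscrepancy F d x P = if multiplicities F d x P = 0 then 1 else 0

end places

section sections

variable {K : Type} [Field K] [Algebra ℂ K] {p : ℕ} (N : ℕ) (δ : Fin p → Place ℂ K → ℚ)

/-- `f` is a section of `∑ i, μ i * D i + j * A`: its order at every prime divisor `P` (every
divisorial place `P` of `K`) is at least `j` times the order of one of the functions in `S`, minus
the coefficient `∑ i, μ i * δ i P` of `∑ i, μ i * D i`. Here `A` is the divisor which is generated by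
the finite set `S` of functions; `A = 0` if `S = {1}`. -/
def IsSection (S : Finset K) (μ : Fin p → ℤ) (j : ℕ) (f : K) : Prop :=
  ∀ P : Place ℂ K, Divisorial N P → f = 0 ∨ ∃ s ∈ S, s ≠ 0 ∧
    (j : ℚ) * P.ord s - ∑ i, (μ i : ℚ) * δ i P ≤ P.ord f

/-- The real combination `L = ∑ i, lam i * D i` is nef at the prime divisors in `C`: there is a
divisor `A` such that for all `M ≥ 1` there is `j ≥ 1` such that for every prime divisor `P` in `C`
there is an integral combination `∑ i, μ i * D i` with `|μ i - j * M * lam i| ≤ j` (so
`∑ i, μ i * D i + j * A` is `j * (M L + A)` up to rounding) such that `∑ i, μ i * D i + j * A` has a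
section of the minimal order at `P`. If `C` are the prime divisors on the projective variety `X`,
this means that `L` is in the closure of the cone of the movable divisors (`A` is sufficiently ample:
then the `∑ i, μ i * D i + j * A` are movable, for suitable `j`); if `C` are all prime divisors over
`X`, it means that `L` is nef. -/
def NefAt (C : Place ℂ K → Prop) (lam : Fin p → ℝ) : Prop :=
  ∃ S : Finset K, (∃ s ∈ S, s ≠ 0) ∧ ∀ M : ℕ, 1 ≤ M → ∃ j : ℕ, 1 ≤ j ∧
    ∀ P : Place ℂ K, Divisorial N P → C P →
      ∃ μ : Fin p → ℤ, (∀ i, |(μ i : ℝ) - j * M * lam i| ≤ j) ∧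
        ∃ f : K, f ≠ 0 ∧ IsSection N δ S μ j f ∧ ∀ s ∈ S, s ≠ 0 →
          (P.ord f : ℚ) ≤ j * P.ord s - ∑ i, (μ i : ℚ) * δ i P

/-- The linear system of the integral combination `∑ i, μ i * D i` has no base points over the subset
which belongs to `C`: it has for every prime divisor `P` in `C` a section which does not vanish at
`P`, that is, its order at `P` is the minimal one. -/
def FreeAt (C : Place ℂ K → Prop) (μ : Fin p → ℤ) : Prop :=
  ∀ P : Place ℂ K, Divisorial N P → C P → ∃ f : K, f ≠ 0 ∧ IsSection N δ {1} μ 0 f ∧
    (P.ord f : ℚ) ≤ - ∑ i, (μ i : ℚ) * δ i P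

/-- The real combination `∑ i, lam i * D i` is effective: it is a combination with nonnegative real
coefficients of integral combinations `∑ i, μ b i * D i` which have nonzero sections. -/
def Effective (lam : Fin p → ℝ) : Prop :=
  ∃ (M : ℕ) (μ : Fin M → Fin p → ℤ) (t : Fin M → ℝ), (∀ b, 0 ≤ t b) ∧
    (∀ b, ∃ f : K, f ≠ 0 ∧ IsSection N δ {1} (μ b) 0 f) ∧ ∀ i, lam i = ∑ b, t b * μ b i

/-- The real combinations `∑ i, lam i * D i` which are effective and nef at the prime divisors in `C`.
If `C` are the prime divisors on the projective variety `X` this is the effective movable cone. -/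
def effectiveCone (C : Place ℂ K → Prop) : Set (Fin p → ℝ) :=
  {lam | NefAt N δ C lam ∧ Effective N δ lam}

end sections

/-- The linear map of the real vector space which is given by an integral matrix. -/
def act {p : ℕ} (g : GL (Fin p) ℤ) (lam : Fin p → ℝ) : Fin p → ℝ :=
  fun i => ∑ j, ((g : Matrix (Fin p) (Fin p) ℤ) i j : ℝ) * lam j

/-- The rational polyhedral cone which is generated by integral vectors. -/
def rationalCone {p M : ℕ} (h : Fin M → Fin p → ℤ) : Set (Fin p → ℝ) :=
  {lam | ∃ t : Fin M → ℝ, (∀ b, 0 ≤ t b) ∧ ∀ i, lam i = ∑ b, t b * h b i}

/-- **Fundamental domains.** Let `K` be the function field of an abelian cover `Y` of the product of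
the projective `n i`-spaces which is branched along smooth hypersurfaces `F i = 0` of the factors, `X`
the toroidal modification of `Y` which is given by `fan`, and `D i`, `i < p`, toroidal `ℚ`-Cartier
divisors on `X` with the degrees `β i t` and the coefficients `c i`. Let `faces` be a nonempty set of
cones, each generated by some of the generators of a cone of `fan`; for the set of the rays `Test` are
the prime divisors on `X` and the effective cone is the effective movable cone. Assume that the
effective cone contains no line and has interior points. Let `Γ` be a group of invertible integral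
matrices which map it into itself. Then `Γ` is finite, all combinations which are nef at the prime
divisors in `Test` are effective, and there is a rational polyhedral cone, generated by integral
combinations without base points over the open subset of `X` which belongs to `faces`, whose images
under `Γ` cover the effective cone, and whose interior is disjoint from the interiors of its images
under all `g ≠ 1` in `Γ`. -/
theorem result (r N R p : ℕ) (n d : Fin r → ℕ) (hr : 1 ≤ r) (hn : ∀ i, 1 ≤ n i)
    (hd : ∀ i, 1 ≤ d i) (hN : N = ∑ i, n i)
    (F : ∀ i, MvPolynomial (Fin (n i + 1)) ℂ) (hF : ∀ i, (F i).IsHomogeneous (d i))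
    (hs : ∀ i, Smooth (F i)) (m : Fin R → ℕ) (hm : ∀ j, 1 ≤ m j) (a : Fin R → Fin r → ℕ)
    (hdiv : ∀ j i, m j ∣ a j i * d i)
    (K : Type) [Field K] [Algebra ℂ K] (x : ∀ i, Fin (n i + 1) → K) (hx0 : ∀ i, x i 0 ≠ 0)
    (hbas : IsTranscendenceBasis ℂ (affine x)) (z : Fin R → K)
    (hz : ∀ j, z j ^ m j = ∏ i, (aeval (x i) (F i) / x i 0 ^ d i) ^ a j i)
    (hgen : IntermediateField.adjoin ℂ (Set.range (affine x) ∪ Set.range z) = ⊤)
    (fan : Finset (Finset (Fin r → ℕ))) (hfan : IsFan m a fan)
    (c : Fin p → (Fin r → ℕ) → ℚ) (hc0 : ∀ i, c i 0 = 0) (β : Fin p → Fin r → ℤ)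
    (u : Finset (Fin r → ℕ) → Fin p → Fin r → ℚ)
    (hlin : ∀ σ ∈ fan, ∀ i v, Admissible m a v → InCone σ v → - c i v = ∑ k, u σ i k * v k)
    (δ : Fin p → Place ℂ K → ℚ) (hδ : ∀ i P, δ i P = coefficient F d x (c i) (β i) P)
    (faces : Finset (Finset (Fin r → ℕ))) (hne : faces.Nonempty)
    (hfaces : ∀ τ ∈ faces, τ.Nonempty ∧ ∃ σ ∈ fan, τ ⊆ σ)
    (hline : ∀ lam ∈ effectiveCone N δ (Test F d x faces),
      -lam ∈ effectiveCone N δ (Test F d x faces) → lam = 0)
    (hint : (interior (effectiveCone N δ (Test F d x faces))).Nonempty)
    (Γ : Subgroup (GL (Fin p) ℤ))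
    (hΓ : ∀ g ∈ Γ, ∀ lam ∈ effectiveCone N δ (Test F d x faces),
      act g lam ∈ effectiveCone N δ (Test F d x faces)) :
    Finite Γ ∧ (∀ lam, NefAt N δ (Test F d x faces) lam → Effective N δ lam) ∧
      ∃ (M : ℕ) (h : Fin M → Fin p → ℤ), (∀ b, FreeAt N δ (Over F d x faces) (h b)) ∧
        effectiveCone N δ (Test F d x faces) = ⋃ g ∈ Γ, act g '' rationalCone h ∧
        ∀ g ∈ Γ, g ≠ 1 →
          interior (rationalCone h) ∩ act g '' interior (rationalCone h) = ∅ := by
  have hfan' : Pool.Agent.Q57.FT.Fan m a fan := ⟨hfan.adm, hfan.full, hfan.cover⟩
  have hTest : Test F d x faces = Pool.Agent.Q57.MV.OpD F d x faces := by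
    funext P
    apply propext
    unfold Test Pool.Agent.Q57.MV.OpD
    refine and_congr Iff.rfl ?_
    have h3 : logDiscrepancy F d x P = Pool.Agent.Q57.TC.lD F d x P := rfl
    rw [h3]
    by_cases h4 : multiplicities F d x P = 0
    · rw [if_pos h4, if_pos (show Pool.Agent.Q57.TQ.mulQ F d x P = 0 from h4)]
    · rw [if_neg h4, if_neg (show ¬ Pool.Agent.Q57.TQ.mulQ F d x P = 0 from h4)]
  obtain ⟨N0, h0, h1, h2⟩ := Pool.Agent.Q57.MV.main_mov (N := N) hr hn hN hd hF hs hx0 hbas hm
    hdiv hz hgen (S := fan) hfan' hc0 (u := u) hlin (β := β) hδ (T := faces) hfaces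
  -- a prime divisor over the open subset
  obtain ⟨P0, hP0, hO0⟩ : ∃ P, Divisorial N P ∧ Over F d x faces P := by
    obtain ⟨τ, hτ⟩ := hne
    obtain ⟨⟨s, hs'⟩, σ, hσ, hτσ⟩ := hfaces τ hτ
    obtain ⟨P, k, hk, hP, hw⟩ := Pool.Agent.Q57.FD.exists_over (N := N) hr hn hN hd hF hs hx0 hbas
      hm hdiv hz hgen (hfan.adm σ hσ s (hτσ hs'))
    refine ⟨P, hP, τ, hτ, fun v => if v = s then (1 : ℚ) / k else 0, fun v => ?_, fun l => ?_⟩
    · beta_reduce
      split_ifs
      · positivity
      · exact le_refl _
    · rw [Finset.sum_eq_single s (fun v _ hv => by beta_reduce; rw [if_neg hv, zero_mul])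
        (fun h => absurd hs' h)]
      beta_reduce
      rw [if_pos rfl]
      have h5 := congrFun hw l
      rw [Pi.smul_apply, smul_eq_mul] at h5
      have hk0 : (k : ℚ) ≠ 0 := by
        have : k ≠ 0 := by omega
        exact_mod_cast this
      have h6 : (s l : ℚ) = k * (multiplicities F d x P l : ℚ) := by
        rw [h5]
        push_cast
        rfl
      rw [h6]
      field_simp
  have hsec : ∀ {μ : Fin p → ℤ} {f : K}, Pool.Agent.Q57.FT.ZSec N δ μ f →
      IsSection N δ {1} μ 0 f := by
    intro μ f hf P hP
    refine (hf P hP).imp id fun h5 => ⟨1, by simp, one_ne_zero, ?_⟩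
    rw [P.ord_one]
    push_cast at h5 ⊢
    linarith
  -- all nef combinations are effective
  have heff : ∀ lam, NefAt N δ (Test F d x faces) lam → Effective N δ lam := by
    intro lam h
    rw [hTest] at h
    obtain ⟨t, ht, hlt⟩ := (h2 lam).2.2.1 h
    refine ⟨N0, h0, t, ht, fun b => ?_, hlt⟩
    obtain ⟨f, hf0, hf, -⟩ := h1 b P0 hP0 hO0
    exact ⟨f, hf0, hsec hf⟩
  have hiff : ∀ lam, lam ∈ effectiveCone N δ (Test F d x faces) ↔
      Pool.Agent.Q57.MV.NefZo (Pool.Agent.Q57.MV.OpD F d x faces) N δ lam := by
    intro lam
    refine ⟨fun h => ?_, fun h => ⟨?_, heff lam ?_⟩⟩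
    · have h5 := h.1
      rw [hTest] at h5
      exact h5
    · rw [hTest]
      exact h
    · rw [hTest]
      exact h
  have hset : effectiveCone N δ (Test F d x faces) =
      {lam | Pool.Agent.Q57.MV.NefZo (Pool.Agent.Q57.MV.OpD F d x faces) N δ lam} := Set.ext hiff
  rw [hset] at hint
  obtain ⟨hfin, M, h, h3, h4, h5⟩ := Pool.Agent.Q57.FD.main_movdom (N := N) hr hn hN hd hF hs hx0
    hbas hm hdiv hz hgen (S := fan) hfan' hc0 (u := u) hlin (β := β) hδ (T := faces) hfaces
    (fun lam hl hl' => hline lam ((hiff _).2 hl) ((hiff _).2 hl')) hint Γ
    (fun g hg lam hl => (hiff _).1 (hΓ g hg lam ((hiff _).2 hl)))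
  refine ⟨hfin, heff, M, h, fun b P hP hPO => ?_, ?_, fun g hg hg1 => ?_⟩
  · obtain ⟨f, hf0, hf, hle⟩ := h3 b P hP hPO
    exact ⟨f, hf0, hsec hf, hle⟩
  · ext lam
    rw [hiff, h4, Set.mem_iUnion₂]
    constructor
    · rintro ⟨g, hg, y, hy, rfl⟩
      exact ⟨g, hg, y, hy, rfl⟩
    · rintro ⟨g, hg, y, hy, rfl⟩
      exact ⟨g, hg, y, hy, rfl⟩
  · have h6 := Set.disjoint_iff_inter_eq_empty.1 (h5 g hg hg1)
    refine Set.subset_empty_iff.1 (le_trans (Set.inter_subset_inter_right _
      (Set.image_mono interior_subset)) h6.le)

end Pool.Agent.Results.MP_ad47bb_ag.ToroidalModelDomains
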