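import Pool.Agent.Q43.CC.Main

set_option autoImplicit false

/-!
# The nef and the movable cone conjecture for all quotients of complex tori by finite groups

Let `X = V / Γ` be a projective quotient of a complex torus by any finite group. (The quotient map may
be ramified in codimension one; the canonical divisor is then not trivial, but `- K_X` is always
numerically equivalent to an effective divisor, so that `X` carries klt Calabi-Yau pairs.) The theorem
says that one rational polyhedral cone is a fundamental domain for `Aut(X)` on `Nef^e(X)` and for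
`PsAut(X)` on `Mov^e(X)`, and the same for all groups commensurable with these, and for the groups
`Aut(X, Δ)` and `PsAut(X, Δ)` if `K_X + Δ` is numerically trivial.

`latt`, `IsTorusQuotient` and `LineBundle` are defined in `Pool.Agent.W594.SYZ.Defs2`; `IsChernForm`
and `IsPositiveForm` in `Pool.Agent.W594.SYZ.TQDefs`; `IsRamification` and `IsLogPluricanonical` in
`Pool.Agent.TH735.AQ.MirDefs`; `AffGrp`, `EffDiv`, `NumTrivial` and `Normalizes` in
`Pool.Agent.Y167.Defs`; `LinGrp`, `Preserves`, `IsFundDomain`, `N1`, `integral`, `nefCone`, `effCone`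
and `IsPullback` in `Pool.Agent.Y167.Stm`; `cone` in `Pool.Agent.Y167.ConeDef`; `NS`,
`IsMovableAbs`, `movEffAbs`, `nefEffAbs`, `affGrpAbs` and `PreservesLattice` in
`Pool.Agent.Q43.CC.Defs`.
-/

namespace Pool.Agent.Results.MP_ad47bb_ag.TorusQuotients

open Pool.Agent.W594.SYZ2 Pool.Agent.TH735.AQ
open Pool.Agent.Y167 (AffGrp EffDiv NumTrivial Normalizes cone rel_abs delta_inv)
open Pool.Agent.Y167.CC Q43.CC

/-- `𝒢` is a group of linear automorphisms of `N^1(X)` which preserves a lattice commensurable with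
the lattice of integral classes (for example the lattice of the classes of Weil divisors) and the cone
`Nef^e(X)` or the cone `Mov^e(X)`, and which contains a subgroup of finite index of the group
generated by the pullbacks `f^*` by the automorphisms of `X` which are induced by affine
transformations `f` of `V` with the property `P`. -/
structure IsLarge {V : Type*} [NormedAddCommGroup V] [NormedSpace ℂ V] {Γ : AffGrp V}
    (P : (V ≃ᵃ[ℂ] V) → Prop) (𝒢 : LinGrp (NS Γ)) : Prop where
  lattice : PreservesLattice 𝒢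
  cones : Preserves 𝒢 (nefEffAbs Γ) ∨ Preserves 𝒢 (movEffAbs Γ)
  index : 𝒢.relIndex (affGrpAbs Γ P) ≠ 0

/-- Let `X = V / Γ` be a projective torus quotient. Then `Nef^e(X) = Mov^e(X)`. If `𝒢` contains, up to
finite index, all automorphisms induced by affine transformations (for example the image of `Aut(X)`
or of `PsAut(X)`), then some rational polyhedral cone is a fundamental domain for the action of `𝒢`
on `Nef^e(X)` and on `Mov^e(X)`. If `Δ` is an effective divisor with real coefficients such that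
`K_X + Δ` is numerically trivial, then the same holds if `𝒢` contains, up to finite index, those
which map `Δ` to itself (for example the image of `Aut(X, Δ)` or of `PsAut(X, Δ)`). -/
theorem result {V : Type*} [NormedAddCommGroup V] [NormedSpace ℂ V] [FiniteDimensional ℂ V]
    (Γ : AffGrp V) (hΓ : IsTorusQuotient Γ)
    (hproj : ∃ (L : LineBundle Γ) (H : V → V → ℂ), IsChernForm L H ∧ IsPositiveForm H) :
    nefEffAbs Γ = movEffAbs Γ ∧
    (∀ 𝒢 : LinGrp (NS Γ), IsLarge (fun _ => True) 𝒢 →
      ∃ S : Finset (NS Γ), ↑S ⊆ integral Γ (LinearMap.id : V →ₗ[ℂ] V) ∧ cone S ⊆ nefEffAbs Γ ∧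
        IsFundDomain 𝒢 (nefEffAbs Γ) (cone S) ∧ IsFundDomain 𝒢 (movEffAbs Γ) (cone S)) ∧
    ∀ (n : ℕ) (Δ : EffDiv Γ (Fin n)), NumTrivial Δ (LinearMap.id : V →ₗ[ℂ] V) →
      ∀ 𝒢 : LinGrp (NS Γ), IsLarge (fun f => ∀ v, Δ.mul (f v) = Δ.mul v) 𝒢 →
        ∃ S : Finset (NS Γ), ↑S ⊆ integral Γ (LinearMap.id : V →ₗ[ℂ] V) ∧ cone S ⊆ nefEffAbs Γ ∧
          IsFundDomain 𝒢 (nefEffAbs Γ) (cone S) ∧ IsFundDomain 𝒢 (movEffAbs Γ) (cone S) := by
  obtain ⟨L, H, hc, hp⟩ := hproj
  have R := rel_abs hΓ hc hp
  have e := (movEffAbs_eq R).1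
  refine ⟨e.symm, fun 𝒢 h𝒢 => ?_, fun n Δ hΔ 𝒢 h𝒢 => ?_⟩
  · obtain ⟨S, h1, h2, h3⟩ := abs_main R _ (fun _ _ _ _ _ => trivial) 𝒢 h𝒢.lattice h𝒢.cones h𝒢.index
    exact ⟨S, h1, h2, h3, by rw [e]; exact h3⟩
  · obtain ⟨S, h1, h2, h3⟩ := abs_main R _ (fun m u hu f hf => delta_inv R Δ hΔ hu hf) 𝒢
      h𝒢.lattice h𝒢.cones h𝒢.index
    exact ⟨S, h1, h2, h3, by rw [e]; exact h3⟩

end Pool.Agent.Results.MP_ad47bb_ag.TorusQuotients
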